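import Mathlib
import Pool.Agent.H984R3.ConvDefs
import Pool.Agent.H984R3.Burl2
import Pool.Agent.W225.CG.Geom
import Pool.Agent.W225.CG.BDim

/-!
# Convex geometries of bounded Boolean dimension and unbounded dimension

The ordered data come from a triangle-free family of boxes in space of large chromatic number; each
of the three coordinates is used twice, once in each direction.
-/

namespace Pool.Agent.Results.MP_d1e448_co.BooleanDim

open Pool.Agent.H984R3.ConvDefs Pool.Agent.H984R3.Burl Pool.Agent.W225.CG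

/-- lower and upper faces of a box in a given coordinate -/
def lo (b : Box) (a : Fin 3) : ℚ := ![b.x0, b.y0, b.z0] a
def hi (b : Box) (a : Fin 3) : ℚ := ![b.x1, b.y1, b.z1] a

theorem lo_le_hi {b : Box} (h : b.Unit) (a : Fin 3) : lo b a ≤ hi b a := by
  obtain ⟨_, h1, _, _, h2, _, _, h3, _⟩ := h
  fin_cases a
  · exact h1
  · exact h2
  · exact h3

/-- The ordered data of a finite family of boxes: six coordinates, three of them reversed. -/
def data {W : Type} {n : ℕ} (e : W ≃ Fin n) (b : W → Box) (hb : ∀ w, (b w).Unit) :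
    Data (Fin 3 × Bool) W (ℚ ×ₗ Fin n) where
  key := fun a w => toLex (if a.2 then - lo (b w) a.1 else hi (b w) a.1, e w)
  inj := by
    intro a v w h
    have := congrArg (fun z => (ofLex z).2) h
    exact e.injective this
  ll := fun a v w => if a.2 then hi (b w) a.1 < lo (b v) a.1 else hi (b v) a.1 < lo (b w) a.1
  ll_down := by
    rintro ⟨a, s⟩ u v w huv h
    rw [Prod.Lex.toLex_le_toLex] at huv
    cases s
    · simp only [Bool.false_eq_true, if_false] at huv h ⊢
      rcases huv with h' | h'
      · exact h'.trans h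
      · rw [h'.1]
        exact h
    · simp only [if_true] at huv h ⊢
      rcases huv with h' | h'
      · linarith
      · have h1 := h'.1
        linarith
  ll_lt := by
    rintro ⟨a, s⟩ v w h
    rw [Prod.Lex.toLex_lt_toLex]
    left
    have hv := lo_le_hi (hb v) a
    have hw := lo_le_hi (hb w) a
    cases s
    · simp only [Bool.false_eq_true, if_false] at h ⊢
      linarith
    · simp only [if_true] at h ⊢
      linarith

theorem adj_iff {W : Type} {n : ℕ} (e : W ≃ Fin n) (b : W → Box) (hb : ∀ w, (b w).Unit)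
    (v w : W) : (data e b hb).Adj v w ↔ v ≠ w ∧ (b v).Meets (b w) := by
  unfold Data.Adj
  refine and_congr_right fun _ => ?_
  constructor
  · intro h
    have h0 := h (0, false)
    have h1 := h (1, false)
    have h2 := h (2, false)
    simp only [data, Bool.false_eq_true, if_false, not_lt] at h0 h1 h2
    exact ⟨h0.2, h0.1, h1.2, h1.1, h2.2, h2.1⟩
  · rintro ⟨m1, m2, m3, m4, m5, m6⟩ ⟨a, s⟩
    cases s <;> simp only [data, Bool.false_eq_true, if_false, if_true, not_lt] <;> fin_cases a
    · exact ⟨m2, m1⟩
    · exact ⟨m4, m3⟩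
    · exact ⟨m6, m5⟩
    · exact ⟨m1, m2⟩
    · exact ⟨m3, m4⟩
    · exact ⟨m5, m6⟩

theorem sym_ll {W : Type} {n : ℕ} (e : W ≃ Fin n) (b : W → Box) (hb : ∀ w, (b w).Unit)
    (v w : W) (a : Fin 3 × Bool) (h : (data e b hb).ll a v w) :
    ∃ a', (data e b hb).ll a' w v := by
  obtain ⟨a, s⟩ := a
  refine ⟨(a, !s), ?_⟩
  cases s
  · simpa [data] using h
  · simpa [data] using h

/-- There are convex geometries of Boolean dimension at most `32` and arbitrarily large
dimension. -/
theorem result : ∀ k : ℕ, ∃ (X : Type) (_ : Finite X) (C : Set (Set X)),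
    IsConvexGeometry C ∧ BooleanDimLE C 32 ∧ ¬ DimLE C k := by
  intro k
  obtain ⟨W, hW, b, hb, htri, hcol⟩ := exists_boxes (k + 1)
  have := Fintype.ofFinite W
  have hne : Nonempty W := by
    obtain ⟨v, _⟩ := hcol (fun _ => 0)
    exact ⟨v⟩
  classical
  let D := data (Fintype.equivFin W) b hb
  refine ⟨W ⊕ ((Fin 3 × Bool) × W), inferInstance, D.closed, closed_geometry D, ?_, ?_⟩
  · have h := booleanDimLE D (fun v w a h => sym_ll _ b hb v w a h) ?_
    · simpa using h
    · intro u v w h1 h2 h3
      rw [adj_iff] at h1 h2 h3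
      exact htri u v w h1.1 h2.1 h3.1 h1.2 h2.2 h3.2
  · refine not_dimLE D ?_
    intro c
    obtain ⟨v, w, hvw, hm, hc⟩ := hcol (fun x => Fin.castSucc (c x))
    exact ⟨v, w, (adj_iff _ b hb v w).2 ⟨hvw, hm⟩, Fin.castSucc_injective _ hc⟩

end Pool.Agent.Results.MP_d1e448_co.BooleanDim
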